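import Pool.Agent.Helper85.QT.St2

/-!
# Project QT, module ANA: the element `α`
-/

set_option autoImplicit false

open MeasureTheory Matrix Set Topology
open scoped ENNReal ComplexConjugate

namespace Pool.Agent.Helper14.QT

open Pool.Agent.Helper85.QT Pool.Agent.Helper86.QA

/-- product of diagonal elements -/
theorem dg_mul {g h : SL} {u v : ℂ} (hg1 : g 0 1 = 0) (hg2 : g 1 0 = 0) (hg : g 0 0 = u * g 1 1)
    (hh1 : h 0 1 = 0) (hh2 : h 1 0 = 0) (hh : h 0 0 = v * h 1 1) :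
    (g * h) 0 1 = 0 ∧ (g * h) 1 0 = 0 ∧ (g * h) 0 0 = (u * v) * (g * h) 1 1 := by
  simp only [Matrix.SpecialLinearGroup.coe_mul, Matrix.mul_apply, Fin.sum_univ_two]
  refine ⟨?_, ?_, ?_⟩
  · rw [hg1, hh1]; ring
  · rw [hg2, hh2]; ring
  · rw [hg1, hg2, hg, hh]; ring

/-- inverse of a diagonal element -/
theorem dg_inv {g : SL} {u : ℂ} (hu : u ≠ 0) (hg1 : g 0 1 = 0) (hg2 : g 1 0 = 0)
    (hg : g 0 0 = u * g 1 1) :
    (g⁻¹) 0 1 = 0 ∧ (g⁻¹) 1 0 = 0 ∧ (g⁻¹) 0 0 = u⁻¹ * (g⁻¹) 1 1 := by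
  rw [Matrix.SpecialLinearGroup.SL2_inv_expl]
  refine ⟨?_, ?_, ?_⟩
  · simp [hg1]
  · simp [hg2]
  · simp [hg, hu]

theorem powz {Γ : Type} [Group Γ] (ρ : Γ →* SL) (α : Γ) (lam : ℂ)
    (h1 : (ρ α) 0 1 = 0) (h2 : (ρ α) 1 0 = 0) (h3 : (ρ α) 0 0 = Complex.exp lam * (ρ α) 1 1)
    (n : ℤ) : (ρ (α ^ n)) 0 1 = 0 ∧ (ρ (α ^ n)) 1 0 = 0 ∧
      (ρ (α ^ n)) 0 0 = Complex.exp (n * lam) * (ρ (α ^ n)) 1 1 := by
  induction n using Int.induction_on with
  | zero =>
    simp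
  | succ n ih =>
    have h := dg_mul ih.1 ih.2.1 ih.2.2 h1 h2 h3
    rw [_root_.zpow_add_one, map_mul]
    refine ⟨h.1, h.2.1, ?_⟩
    rw [h.2.2, ← Complex.exp_add]
    congr 2
    push_cast
    ring
  | pred n ih =>
    have hi := dg_inv (Complex.exp_ne_zero lam) h1 h2 h3
    have h := dg_mul ih.1 ih.2.1 ih.2.2 hi.1 hi.2.1 hi.2.2
    rw [_root_.zpow_sub_one, map_mul, map_inv]
    refine ⟨h.1, h.2.1, ?_⟩
    rw [h.2.2, ← Complex.exp_neg, ← Complex.exp_add]
    congr 2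
    push_cast
    ring

theorem dg_ne {g : SL} (hg1 : g 0 1 = 0) : g 0 0 * g 1 1 = 1 := by
  have h := g.det_coe
  rw [Matrix.det_fin_two, hg1] at h
  linear_combination h

theorem hANA (_hACT : Pool.Agent.Helper86.QA.StACT) (hPD2 : Pool.Agent.Helper86.QA.StPD2)
    (hSB3 : Pool.Agent.Helper85.QT.StSB3) : Pool.Agent.Helper85.QT.StANA := by
  intro Γ _ ρ A B α lam M G m φ C3 hAnn
  have hp := powz ρ α lam hAnn.dg.1 hAnn.dg.2 hAnn.mu
  have hne : ∀ n : ℤ, (ρ (α ^ n)) 1 1 ≠ 0 := by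
    intro n h0
    have := dg_ne (hp n).1
    rw [h0, mul_zero] at this
    exact zero_ne_one this
  have c1 : ∀ (n : ℤ) (ξ : ℂ), (ρ (α ^ n)) 1 0 * ξ + (ρ (α ^ n)) 1 1 ≠ 0 ∧
      mb (ρ (α ^ n)) ξ = Complex.exp (n * lam) * ξ := by
    intro n ξ
    have hd : (ρ (α ^ n)) 1 0 * ξ + (ρ (α ^ n)) 1 1 = (ρ (α ^ n)) 1 1 := by
      rw [(hp n).2.1]; ring
    refine ⟨by rw [hd]; exact hne n, ?_⟩
    unfold mb
    rw [hd, (hp n).1, (hp n).2.2, add_zero, div_eq_iff (hne n)]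
    ring
  have c0 : (0 : ℂ) ∈ LS A B := by
    by_contra hn
    have h0 : (0 : ℂ) ∈ A ∪ B := by
      by_contra h
      exact hn h
    have hfin := (hPD2 Γ ρ A B hAnn.kd {0} {0} 0 0 isCompact_singleton
      (Set.singleton_subset_iff.mpr h0) isCompact_singleton
      (Set.singleton_subset_iff.mpr h0)).2.2
    have hin : ∀ n : ℕ, α ^ n ∈ {γ : Γ | ∃ ξ ∈ ({0} : Set ℂ), ab ρ γ ξ ∈ ({0} : Set ℂ)} := by
      intro n
      refine ⟨0, rfl, ?_⟩
      have h := (c1 n 0).2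
      rw [mul_zero, zpow_natCast] at h
      exact h
    have hnotinj : ¬ Function.Injective (fun n : ℕ => α ^ n) := by
      intro hinj
      exact Set.infinite_range_of_injective hinj
        (hfin.subset (Set.range_subset_iff.mpr hin))
    have hex : ∃ k : ℕ, 1 ≤ k ∧ α ^ k = 1 := by
      simp only [Function.Injective] at hnotinj
      push Not at hnotinj
      obtain ⟨a, b, hab, hne'⟩ := hnotinj
      rcases lt_or_gt_of_ne hne' with hlt | hlt
      · refine ⟨b - a, by omega, ?_⟩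
        have h : α ^ (b - a) * α ^ a = α ^ b := by rw [← pow_add]; congr 1; omega
        rw [← hab] at h
        exact mul_eq_right.mp h
      · refine ⟨a - b, by omega, ?_⟩
        have h : α ^ (a - b) * α ^ b = α ^ a := by rw [← pow_add]; congr 1; omega
        rw [hab] at h
        exact mul_eq_right.mp h
    obtain ⟨k, hk1, hk⟩ := hex
    have hα : α = 1 := hAnn.kd.tf α k hk1 hk
    have hmu := hAnn.mu
    rw [hα, map_one] at hmu
    simp only [Matrix.SpecialLinearGroup.coe_one, Matrix.one_apply_eq, mul_one] at hmu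
    have hnorm : ‖Complex.exp lam‖ = 1 := by rw [← hmu]; simp
    rw [Complex.norm_exp] at hnorm
    have := Real.exp_injective (hnorm.trans Real.exp_zero.symm)
    have hre := hAnn.re
    linarith
  refine ⟨c1, ?_, c0, ?_, ?_⟩
  · intro n x hx
    have h10 := (hp n).2.1
    have h01 := (hp n).1
    have h00 := (hp n).2.2
    have hprod := dg_ne h01
    have hden : den (ρ (α ^ n)) x = ‖(ρ (α ^ n)) 1 1‖ ^ 2 := by
      unfold den
      rw [h10]
      simp
    have hn0 : (0 : ℝ) < ‖(ρ (α ^ n)) 1 1‖ := norm_pos_iff.mpr (hne n)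
    unfold ga
    rw [hden, h10, h01]
    refine Prod.ext ?_ ?_
    · simp only
      have hc : (((‖(ρ (α ^ n)) 1 1‖ ^ 2 : ℝ)) : ℂ) = (ρ (α ^ n)) 1 1 * conj ((ρ (α ^ n)) 1 1) := by
        rw [Complex.mul_conj, Complex.normSq_eq_norm_sq]
      have hc0 : conj ((ρ (α ^ n)) 1 1) ≠ 0 := by
        rw [Ne, map_eq_zero]; exact hne n
      rw [hc, h00, map_zero, zero_mul, zero_add, mul_zero, zero_mul, add_zero, add_zero,
        div_eq_iff (mul_ne_zero (hne n) hc0)]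
      ring
    · simp only
      have h2 : ‖Complex.exp (n * lam)‖ * ‖(ρ (α ^ n)) 1 1‖ ^ 2 = 1 := by
        have := congrArg norm hprod
        rw [h00, norm_mul, norm_mul, norm_one] at this
        linarith [this, sq (‖(ρ (α ^ n)) 1 1‖)]
      rw [div_eq_iff (by positivity)]
      linear_combination (-x.2) * h2
  · intro n ξ hξ
    have h := (hSB3 Γ ρ A B hAnn.kd).2.1 (α ^ n) ξ hξ (c1 n ξ).1
    rw [(c1 n ξ).2] at h
    exact h
  · by_contra hno
    push Not at hno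
    have hsub : ({0}ᶜ : Set ℂ) ⊆ A ∪ B := by
      intro ξ hξ
      by_contra hn
      exact hξ (hno ξ hn)
    have hc : IsPreconnected ({0}ᶜ : Set ℂ) := by
      apply IsPathConnected.isConnected _ |>.isPreconnected
      apply isPathConnected_compl_singleton_of_one_lt_rank
      rw [Complex.rank_real_complex]
      exact Nat.one_lt_ofNat
    have h0 : (0 : ℂ) ∉ A ∧ (0 : ℂ) ∉ B := by
      constructor
      · intro h; exact c0 (Or.inl h)
      · intro h; exact c0 (Or.inr h)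
    rcases hc.subset_or_subset hAnn.kd.opA hAnn.kd.opB hAnn.kd.dis hsub with h | h
    · obtain ⟨b, hb⟩ := hAnn.kd.neB
      have hb0 : b ≠ 0 := fun hh => h0.2 (hh ▸ hb)
      exact Set.disjoint_left.mp hAnn.kd.dis (h hb0) hb
    · obtain ⟨b, hb⟩ := hAnn.kd.neA
      have hb0 : b ≠ 0 := fun hh => h0.1 (hh ▸ hb)
      exact Set.disjoint_left.mp hAnn.kd.dis hb (h hb0)

end Pool.Agent.Helper14.QT
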