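import Pool.Agent.Helper88.QT.St1
import Pool.Agent.Helper85.QT.St1

/-!
# Project QT, module GPT: flat height along a geodesic
-/

set_option autoImplicit false

open MeasureTheory Matrix Set Topology
open scoped ENNReal ComplexConjugate

namespace Pool.Agent.Helper14.QT

open Pool.Agent.Helper88.QT Pool.Agent.Helper85.QT Pool.Agent.Helper86.QA

private theorem nsq' (w : ℂ) : ‖w‖ ^ 2 = w.re ^ 2 + w.im ^ 2 := by
  rw [Complex.sq_norm, Complex.normSq_apply]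
  ring

/-- the polynomial identity behind the height formula -/
private theorem key1 (a b : ℂ) (p q : ℝ) (hpq : p * q = 1) :
    ‖(p : ℂ) * a + (q : ℂ) * b‖ ^ 2 + ‖a - b‖ ^ 2 =
      ‖a‖ ^ 2 * p ^ 2 + ‖b‖ ^ 2 * q ^ 2 + ‖a‖ ^ 2 + ‖b‖ ^ 2 := by
  rw [nsq', nsq', nsq', nsq']
  simp only [Complex.add_re, Complex.add_im, Complex.sub_re, Complex.sub_im, Complex.mul_re,
    Complex.mul_im, Complex.ofReal_re, Complex.ofReal_im]
  linear_combination (2 * (a.re * b.re + a.im * b.im)) * hpq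

/-- height formula -/
theorem height (lam a b : ℂ) (hlam : lam ≠ 0) (hab : a ≠ b) (w : ℝ) :
    1 / (‖lam‖ * TT lam (gp a b w)) ^ 2 =
      (‖a‖ ^ 2 * Real.exp (2 * w) + ‖b‖ ^ 2 * Real.exp (-(2 * w)) + ‖a‖ ^ 2 + ‖b‖ ^ 2)
        / ‖a - b‖ ^ 2 := by
  have hl : (0 : ℝ) < ‖a - b‖ := norm_pos_iff.mpr (sub_ne_zero.mpr hab)
  have hlm : (0 : ℝ) < ‖lam‖ := norm_pos_iff.mpr hlam
  obtain ⟨p, hp⟩ : ∃ p, p = Real.exp w := ⟨_, rfl⟩
  obtain ⟨q, hq⟩ : ∃ q, q = Real.exp (-w) := ⟨_, rfl⟩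
  have hp0 : 0 < p := by rw [hp]; exact Real.exp_pos _
  have hq0 : 0 < q := by rw [hq]; exact Real.exp_pos _
  have hpq : p * q = 1 := by rw [hp, hq, ← Real.exp_add]; simp
  have hp2 : Real.exp (2 * w) = p ^ 2 := by rw [hp, ← Real.exp_nat_mul]; norm_num
  have hq2 : Real.exp (-(2 * w)) = q ^ 2 := by
    rw [hq, ← Real.exp_nat_mul]
    congr 1
    push_cast
    ring
  have hs : 0 < p + q := by positivity
  have h1 : (gp a b w).1 = ((p : ℂ) * a + (q : ℂ) * b) / ((p + q : ℝ) : ℂ) := by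
    unfold gp
    rw [hp, hq]
  have h2 : (gp a b w).2 = ‖a - b‖ / (p + q) := by
    unfold gp
    rw [hp, hq]
  have hNN : NN (gp a b w) = (‖(p : ℂ) * a + (q : ℂ) * b‖ ^ 2 + ‖a - b‖ ^ 2) / (p + q) ^ 2 := by
    unfold NN
    rw [h1, h2, norm_div, Complex.norm_real, Real.norm_eq_abs, abs_of_pos hs, div_pow, div_pow,
      ← add_div]
  have hNpos : 0 < NN (gp a b w) := by
    rw [hNN]
    positivity
  have hTT : (‖lam‖ * TT lam (gp a b w)) ^ 2 = (gp a b w).2 ^ 2 / NN (gp a b w) := by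
    unfold TT
    have : ‖lam‖ * ((gp a b w).2 / (‖lam‖ * Real.sqrt (NN (gp a b w)))) =
        (gp a b w).2 / Real.sqrt (NN (gp a b w)) := by
      field_simp
    rw [this, div_pow, Real.sq_sqrt hNpos.le]
  rw [hTT, h2, hNN, key1 a b p q hpq, hp2, hq2]
  have hX : 0 < ‖a‖ ^ 2 * p ^ 2 + ‖b‖ ^ 2 * q ^ 2 + ‖a‖ ^ 2 + ‖b‖ ^ 2 := by
    rw [← key1 a b p q hpq]
    positivity
  field_simp

theorem TT_pos (lam a b : ℂ) (hlam : lam ≠ 0) (hab : a ≠ b) (w : ℝ) : 0 < TT lam (gp a b w) := by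
  have hl : (0 : ℝ) < ‖a - b‖ := norm_pos_iff.mpr (sub_ne_zero.mpr hab)
  have hlm : (0 : ℝ) < ‖lam‖ := norm_pos_iff.mpr hlam
  have h2 : 0 < (gp a b w).2 := by
    unfold gp
    positivity
  have hN : 0 < NN (gp a b w) := by
    unfold NN
    positivity
  unfold TT
  positivity

/-- `cosh (x + y) ≤ exp y cosh x` for `y ≥ 0` -/
private theorem cosh_add_le (x y : ℝ) (hy : 0 ≤ y) :
    Real.cosh (x + y) ≤ Real.exp y * Real.cosh x := by
  rw [Real.cosh_eq, Real.cosh_eq, neg_add, Real.exp_add, Real.exp_add]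
  have h1 : Real.exp (-y) ≤ Real.exp y := Real.exp_le_exp.mpr (by linarith)
  have h2 : 0 < Real.exp (-x) := Real.exp_pos _
  nlinarith [mul_le_mul_of_nonneg_left h1 h2.le]

theorem hGPT : Pool.Agent.Helper88.QT.StGPT := by
  intro lam a b hlam ha hb hab
  refine ⟨height lam a b hlam hab, ?_⟩
  intro T v hT hTv
  have hl : (0 : ℝ) < ‖a - b‖ := norm_pos_iff.mpr (sub_ne_zero.mpr hab)
  have hlm : (0 : ℝ) < ‖lam‖ := norm_pos_iff.mpr hlam
  have hna : (0 : ℝ) < ‖a‖ := norm_pos_iff.mpr ha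
  have hnb : (0 : ℝ) < ‖b‖ := norm_pos_iff.mpr hb
  obtain ⟨β, hβ⟩ : ∃ β, β = ‖a‖ * ‖b‖ := ⟨_, rfl⟩
  have hβ0 : 0 < β := by rw [hβ]; positivity
  obtain ⟨u0, hu0⟩ : ∃ u0, u0 = (1 / 2) * Real.log (‖b‖ / ‖a‖) := ⟨_, rfl⟩
  have he2 : Real.exp (2 * u0) = ‖b‖ / ‖a‖ := by
    rw [hu0, show 2 * (1 / 2 * Real.log (‖b‖ / ‖a‖)) = Real.log (‖b‖ / ‖a‖) by ring,
      Real.exp_log (by positivity)]
  have he2' : Real.exp (-(2 * u0)) = ‖a‖ / ‖b‖ := by
    rw [Real.exp_neg, he2, inv_div]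
  obtain ⟨S, hS⟩ : ∃ S, S = ‖a‖ ^ 2 + ‖b‖ ^ 2 := ⟨_, rfl⟩
  have hS0 : 0 < S := by rw [hS]; positivity
  -- the numerator
  have hf : ∀ w : ℝ, ‖a‖ ^ 2 * Real.exp (2 * w) + ‖b‖ ^ 2 * Real.exp (-(2 * w)) + ‖a‖ ^ 2 + ‖b‖ ^ 2
      = 2 * β * Real.cosh (2 * (w - u0)) + S := by
    intro w
    have e1 : Real.exp (2 * (w - u0)) = Real.exp (2 * w) * (‖a‖ / ‖b‖) := by
      rw [← he2', ← Real.exp_add]
      congr 1
      ring
    have e2 : Real.exp (-(2 * (w - u0))) = Real.exp (-(2 * w)) * (‖b‖ / ‖a‖) := by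
      rw [← he2, ← Real.exp_add]
      congr 1
      ring
    rw [Real.cosh_eq, e1, e2, hβ, hS]
    field_simp
    ring
  -- comparison of heights with levels
  have hpos := TT_pos lam a b hlam hab
  have hH : ∀ w : ℝ, 1 / (‖lam‖ * TT lam (gp a b w)) ^ 2 =
      (2 * β * Real.cosh (2 * (w - u0)) + S) / ‖a - b‖ ^ 2 := by
    intro w
    rw [height lam a b hlam hab w, hf]
  have hcmp : ∀ (L w : ℝ), 0 < L →
      (L < TT lam (gp a b w) ↔
        2 * β * Real.cosh (2 * (w - u0)) + S < ‖a - b‖ ^ 2 / (‖lam‖ * L) ^ 2) := by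
    intro L w hL
    have hTw := hpos w
    have h1 : L < TT lam (gp a b w) ↔
        1 / (‖lam‖ * TT lam (gp a b w)) ^ 2 < 1 / (‖lam‖ * L) ^ 2 := by
      rw [one_div_lt_one_div (by positivity) (by positivity),
        pow_lt_pow_iff_left₀ (by positivity) (by positivity) two_ne_zero,
        mul_lt_mul_iff_right₀ hlm]
    rw [h1, hH, div_lt_div_iff₀ (by positivity) (by positivity), lt_div_iff₀ (by positivity),
      one_mul]
  have hceq : ∀ (L w : ℝ), 0 < L →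
      2 * β * Real.cosh (2 * (w - u0)) + S = ‖a - b‖ ^ 2 / (‖lam‖ * L) ^ 2 →
        TT lam (gp a b w) = L := by
    intro L w hL he
    have hTw := hpos w
    have h1 := hH w
    rw [he] at h1
    have h2 : 1 / (‖lam‖ * TT lam (gp a b w)) ^ 2 = 1 / (‖lam‖ * L) ^ 2 := by
      rw [h1]
      field_simp
    have h3 : (‖lam‖ * TT lam (gp a b w)) ^ 2 = (‖lam‖ * L) ^ 2 := by
      have := congrArg (fun x => 1 / x) h2
      simpa using this
    have h4 : ‖lam‖ * TT lam (gp a b w) = ‖lam‖ * L :=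
      (pow_left_inj₀ (by positivity) (by positivity) two_ne_zero).mp h3
    exact mul_left_cancel₀ hlm.ne' h4
  obtain ⟨K, hK⟩ : ∃ K, K = ‖a - b‖ ^ 2 / (‖lam‖ * T) ^ 2 := ⟨_, rfl⟩
  obtain ⟨κ, hκ⟩ : ∃ κ, κ = (K - S) / (2 * β) := ⟨_, rfl⟩
  have hKκ : 2 * β * κ + S = K := by
    rw [hκ]
    field_simp
    ring
  have hv := (hcmp T v hT).mp hTv
  rw [← hK, ← hKκ] at hv
  have hvκ : Real.cosh (2 * (v - u0)) < κ := by
    have : 2 * β * Real.cosh (2 * (v - u0)) < 2 * β * κ := by linarith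
    exact lt_of_mul_lt_mul_left this (by positivity)
  have hκ1 : 1 < κ := lt_of_le_of_lt (Real.one_le_cosh _) hvκ
  obtain ⟨y0, hy0⟩ : ∃ y0, y0 = Real.arcosh κ := ⟨_, rfl⟩
  have hcy : Real.cosh y0 = κ := by rw [hy0]; exact Real.cosh_arcosh hκ1.le
  have hy0' : 0 ≤ y0 := by rw [hy0]; exact Real.arcosh_nonneg hκ1.le
  have hcoshlt : ∀ w : ℝ, Real.cosh (2 * (w - u0)) < κ ↔ |2 * (w - u0)| < y0 := by
    intro w
    rw [← hcy, Real.cosh_lt_cosh, abs_of_nonneg hy0']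
  have hlev : ∀ w : ℝ, T < TT lam (gp a b w) ↔ |2 * (w - u0)| < y0 := by
    intro w
    rw [hcmp T w hT, ← hK, ← hKκ, ← hcoshlt w]
    constructor
    · intro h
      have : 2 * β * Real.cosh (2 * (w - u0)) < 2 * β * κ := by linarith
      exact lt_of_mul_lt_mul_left this (by positivity)
    · intro h
      have := mul_lt_mul_of_pos_left h (by positivity : (0 : ℝ) < 2 * β)
      linarith
  have hvabs := (hlev v).mp hTv
  rw [abs_lt] at hvabs
  have hy0pos : 0 < y0 := by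
    have := abs_nonneg (2 * (v - u0))
    exact lt_of_le_of_lt this ((hlev v).mp hTv)
  refine ⟨u0 - y0 / 2, u0 + y0 / 2, by linarith, by linarith, ?_, ?_, ?_, ?_, ?_, ?_⟩
  · apply hceq T _ hT
    rw [show 2 * (u0 - y0 / 2 - u0) = -y0 by ring, Real.cosh_neg, hcy, hKκ, hK]
  · apply hceq T _ hT
    rw [show 2 * (u0 + y0 / 2 - u0) = y0 by ring, hcy, hKκ, hK]
  · intro w
    rw [hlev w, abs_lt, Set.mem_Ioo]
    constructor
    · rintro ⟨h1, h2⟩
      exact ⟨by linarith, by linarith⟩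
    · rintro ⟨h1, h2⟩
      exact ⟨by linarith, by linarith⟩
  · have h1 : Real.exp (2 * (u0 - y0 / 2)) ≤ ‖b‖ / ‖a‖ := by
      rw [← he2]
      exact Real.exp_le_exp.mpr (by linarith)
    calc ‖a‖ * Real.exp (2 * (u0 - y0 / 2)) ≤ ‖a‖ * (‖b‖ / ‖a‖) :=
          mul_le_mul_of_nonneg_left h1 hna.le
      _ = ‖b‖ := by field_simp
  · have h1 : Real.exp (-(2 * (u0 + y0 / 2))) ≤ ‖a‖ / ‖b‖ := by
      rw [← he2']
      exact Real.exp_le_exp.mpr (by linarith)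
    calc ‖b‖ * Real.exp (-(2 * (u0 + y0 / 2))) ≤ ‖b‖ * (‖a‖ / ‖b‖) :=
          mul_le_mul_of_nonneg_left h1 hnb.le
      _ = ‖a‖ := by field_simp
  · intro w hw1 hw2
    rw [hcmp (T / 2) w (by positivity)]
    have hK4 : ‖a - b‖ ^ 2 / (‖lam‖ * (T / 2)) ^ 2 = 4 * K := by
      rw [hK]
      field_simp
      ring
    rw [hK4]
    have h1 : Real.cosh (2 * (w - u0)) < Real.cosh (y0 + 1 / 2) := by
      rw [Real.cosh_lt_cosh, abs_of_nonneg (by linarith : (0 : ℝ) ≤ y0 + 1 / 2), abs_lt]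
      constructor <;> linarith
    have h2 : Real.cosh (y0 + 1 / 2) ≤ Real.exp (1 / 2) * Real.cosh y0 :=
      cosh_add_le y0 (1 / 2) (by norm_num)
    have h3 : Real.exp (1 / 2) ≤ 4 := by
      have h4 : Real.exp (1 / 2) ≤ Real.exp 1 := Real.exp_le_exp.mpr (by norm_num)
      have h5 := Real.exp_one_lt_d9
      linarith
    have h6 : Real.cosh (2 * (w - u0)) < 4 * κ := by
      rw [hcy] at h2
      nlinarith [mul_le_mul_of_nonneg_right h3 (by linarith : (0 : ℝ) ≤ κ)]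
    have h7 := mul_lt_mul_of_pos_left h6 (by positivity : (0 : ℝ) < 2 * β)
    nlinarith [h7, hKκ, hS0]

end Pool.Agent.Helper14.QT
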