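import Pool.Agent.Helper88.QT.St3
import Pool.Agent.Helper85.QT.St1

/-!
# Project QT, module OSC: oscillation
-/

set_option autoImplicit false

open MeasureTheory Matrix Set Topology Filter
open scoped ENNReal ComplexConjugate

namespace Pool.Agent.Helper14.QT

open Pool.Agent.Helper88.QT Pool.Agent.Helper85.QT Pool.Agent.Helper86.QA

private theorem tanh_Ioo (x : ℝ) : Real.tanh x ∈ Ioo (-1 : ℝ) 1 :=
  Real.tanh_bijOn.mapsTo (mem_univ x)

private theorem tanh_add_mul (x y : ℝ) :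
    Real.tanh (x + y) * (1 + Real.tanh x * Real.tanh y) = Real.tanh x + Real.tanh y := by
  have hx := (Real.cosh_pos x).ne'
  have hy := (Real.cosh_pos y).ne'
  have hxy := (Real.cosh_pos (x + y)).ne'
  rw [Real.tanh_eq_sinh_div_cosh, Real.tanh_eq_sinh_div_cosh, Real.tanh_eq_sinh_div_cosh]
  rw [div_mul_eq_mul_div, div_eq_iff hxy, Real.sinh_add, Real.cosh_add]
  field_simp

private theorem tanh_le' {x y : ℝ} (h : x ≤ y) : Real.tanh x ≤ Real.tanh y := by
  have hx := Real.cosh_pos x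
  have hy := Real.cosh_pos y
  rw [Real.tanh_eq_sinh_div_cosh, Real.tanh_eq_sinh_div_cosh, div_le_div_iff₀ hx hy]
  have h1 : 0 ≤ Real.sinh (y - x) := Real.sinh_nonneg_iff.mpr (by linarith)
  rw [Real.sinh_sub] at h1
  linarith

private theorem tanh_nn {x : ℝ} (h : 0 ≤ x) : 0 ≤ Real.tanh x := by
  have := tanh_le' h
  rwa [Real.tanh_zero] at this

private theorem tanh_up {y : ℝ} (h0 : 0 ≤ y) (h1 : y ≤ 1) : Real.tanh y ≤ y + y ^ 2 / 2 := by
  have hc := Real.one_le_cosh y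
  have hs : 0 ≤ Real.sinh y := Real.sinh_nonneg_iff.mpr h0
  have h2 : Real.tanh y ≤ Real.sinh y := by
    rw [Real.tanh_eq_sinh_div_cosh]
    exact div_le_self hs hc
  refine h2.trans ?_
  rw [Real.sinh_eq]
  have h3 : Real.exp y ≤ 1 + y + y ^ 2 := by
    have := Real.abs_exp_sub_one_sub_id_le (x := y) (by rw [abs_of_nonneg h0]; exact h1)
    have := (abs_le.mp this).2
    linarith
  have h4 : 1 - y ≤ Real.exp (-y) := by
    have := Real.add_one_le_exp (-y)
    linarith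
  linarith

private theorem rr_eq : ((1 + Real.tanh 1) / (1 - Real.tanh 1)) = Real.exp 1 ^ 2 := by
  have h := Real.exp_artanh (tanh_Ioo 1)
  rw [Real.artanh_tanh] at h
  rw [h, Real.sq_sqrt]
  have := tanh_Ioo 1
  exact div_nonneg (by linarith [this.1]) (by linarith [this.2])

private theorem e4 : (Real.exp 1 ^ 2) ^ 2 ≤ 56 := by
  have h := Real.exp_one_lt_d9.le
  have h0 := Real.exp_pos 1
  calc (Real.exp 1 ^ 2) ^ 2 = Real.exp 1 ^ 4 := by ring
    _ ≤ (2.7182818286 : ℝ) ^ 4 := pow_le_pow_left₀ h0.le h 4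
    _ ≤ 56 := by norm_num

private theorem den_ne {p z : ℂ} (hp : ‖p‖ < 1) (hz : ‖z‖ < 1) : 1 + conj p * z ≠ 0 := by
  intro h
  have h1 : conj p * z = -1 := by linear_combination h
  have h2 := congrArg norm h1
  rw [norm_mul, RCLike.norm_conj, norm_neg, norm_one] at h2
  have : ‖p‖ * ‖z‖ < 1 := by
    calc ‖p‖ * ‖z‖ ≤ ‖p‖ * 1 := mul_le_mul_of_nonneg_left hz.le (norm_nonneg _)
      _ < 1 := by linarith
  linarith

private theorem nsq3 (w : ℂ) : ‖w‖ ^ 2 = w.re ^ 2 + w.im ^ 2 := by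
  rw [Complex.sq_norm, Complex.normSq_apply]
  ring

private theorem key (p z : ℂ) :
    ‖1 + conj p * z‖ ^ 2 - ‖z + p‖ ^ 2 = (1 - ‖p‖ ^ 2) * (1 - ‖z‖ ^ 2) := by
  rw [nsq3, nsq3, nsq3, nsq3]
  simp only [Complex.add_re, Complex.add_im, Complex.mul_re, Complex.mul_im, Complex.conj_re,
    Complex.conj_im, Complex.one_re, Complex.one_im]
  ring

private theorem Tp_lt {p z : ℂ} (hp : ‖p‖ < 1) (hz : ‖z‖ < 1) : ‖Tp p z‖ < 1 := by
  have hd : 0 < ‖1 + conj p * z‖ := norm_pos_iff.mpr (den_ne hp hz)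
  unfold Tp
  rw [norm_div, div_lt_one hd]
  have h := key p z
  have h1 : 0 < 1 - ‖p‖ ^ 2 := by nlinarith [norm_nonneg p]
  have h2 : 0 < 1 - ‖z‖ ^ 2 := by nlinarith [norm_nonneg z]
  have h3 : ‖z + p‖ ^ 2 < ‖1 + conj p * z‖ ^ 2 := by nlinarith [mul_pos h1 h2]
  exact lt_of_pow_lt_pow_left₀ 2 hd.le h3

/-- inverse point -/
private theorem Tp_inv {p z : ℂ} (hp : ‖p‖ < 1) (hz : ‖z‖ < 1) : Tp p (Tp (-p) z) = z := by
  have hp' : ‖-p‖ < 1 := by rwa [norm_neg]
  have hd := den_ne hp' hz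
  have hpp : 1 - conj p * p ≠ 0 := by
    have := den_ne hp' hp
    rw [map_neg] at this
    intro h
    apply this
    linear_combination h
  unfold Tp
  rw [map_neg] at hd ⊢
  have h1 : (z + -p) / (1 + -conj p * z) + p = z * (1 - conj p * p) / (1 + -conj p * z) := by
    rw [div_add' _ _ _ hd]
    congr 1
    ring
  have h2 : 1 + conj p * ((z + -p) / (1 + -conj p * z)) = (1 - conj p * p) / (1 + -conj p * z) := by
    rw [← mul_div_assoc, add_comm, div_add' _ _ _ hd]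
    congr 1
    ring
  rw [h1, h2, div_div_div_cancel_right₀ hd, mul_div_cancel_right₀ _ hpp]

/-- norm bound for the inverse point -/
private theorem Tp_norm {p z : ℂ} {r : ℝ} (hr : r < 1) (hp : ‖p‖ ≤ r) (hz : ‖z‖ ≤ r) :
    ‖Tp (-p) z‖ * (1 + r ^ 2) ≤ 2 * r := by
  have hr0 : 0 ≤ r := (norm_nonneg p).trans hp
  have hp' : ‖-p‖ < 1 := by rw [norm_neg]; linarith
  have hz' : ‖z‖ < 1 := by linarith
  have hd : 0 < ‖1 + conj (-p) * z‖ := norm_pos_iff.mpr (den_ne hp' hz')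
  have h := key (-p) z
  rw [norm_neg] at h
  have hden : ‖1 + conj (-p) * z‖ ≤ 1 + r ^ 2 := by
    refine (norm_add_le _ _).trans ?_
    rw [norm_one, norm_mul, RCLike.norm_conj, norm_neg]
    nlinarith [norm_nonneg p, norm_nonneg z, mul_le_mul hp hz (norm_nonneg z) hr0]
  have h1 : (1 - r ^ 2) ^ 2 ≤ (1 - ‖p‖ ^ 2) * (1 - ‖z‖ ^ 2) := by
    have a1 : 1 - r ^ 2 ≤ 1 - ‖p‖ ^ 2 := by nlinarith [norm_nonneg p]
    have a2 : 1 - r ^ 2 ≤ 1 - ‖z‖ ^ 2 := by nlinarith [norm_nonneg z]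
    have a3 : 0 ≤ 1 - r ^ 2 := by nlinarith
    rw [sq]
    exact mul_le_mul a1 a2 a3 (a3.trans a1)
  -- `A = ‖z - p‖ / den`
  have hA : ‖Tp (-p) z‖ * ‖1 + conj (-p) * z‖ = ‖z + -p‖ := by
    unfold Tp
    rw [norm_div, div_mul_cancel₀ _ hd.ne']
  have hAsq : ‖Tp (-p) z‖ ^ 2 * ‖1 + conj (-p) * z‖ ^ 2 = ‖z + -p‖ ^ 2 := by
    rw [← mul_pow, hA]
  have hA1 : ‖Tp (-p) z‖ < 1 := Tp_lt hp' hz'
  have h2 : (1 - ‖Tp (-p) z‖ ^ 2) * (1 + r ^ 2) ^ 2 ≥ (1 - r ^ 2) ^ 2 := by
    have b1 : 0 ≤ 1 - ‖Tp (-p) z‖ ^ 2 := by nlinarith [norm_nonneg (Tp (-p) z)]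
    have b2 : ‖1 + conj (-p) * z‖ ^ 2 ≤ (1 + r ^ 2) ^ 2 := pow_le_pow_left₀ hd.le hden 2
    have b3 : (1 - ‖Tp (-p) z‖ ^ 2) * ‖1 + conj (-p) * z‖ ^ 2 =
        (1 - ‖p‖ ^ 2) * (1 - ‖z‖ ^ 2) := by
      rw [sub_mul, one_mul, hAsq, h]
    have b4 := mul_le_mul_of_nonneg_left b2 b1
    linarith
  have h3 : (‖Tp (-p) z‖ * (1 + r ^ 2)) ^ 2 ≤ (2 * r) ^ 2 := by nlinarith
  exact le_of_sq_le_sq h3 (by positivity)

theorem hOSC (hHK : Pool.Agent.Helper35.PM.St_HK) : Pool.Agent.Helper88.QT.StOSC := by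
  intro u ε θ hε hθ0 hθ1 hu hu1 hG halt z hz
  obtain ⟨r, hr⟩ : ∃ r, r = Real.tanh 1 := ⟨_, rfl⟩
  have hr0 : 0 ≤ r := by rw [hr]; exact tanh_nn zero_le_one
  have hr1 : r < 1 := by rw [hr]; exact (tanh_Ioo 1).2
  rw [← hr] at halt hz hu1
  have hball : ∀ w : ℂ, ‖w‖ < 1 → w ∈ Metric.ball (0 : ℂ) 1 := fun w hw => by
    rwa [mem_ball_zero_iff]
  have hball' : ∀ w : ℂ, w ∈ Metric.ball (0 : ℂ) 1 → ‖w‖ < 1 := fun w hw => by
    rwa [mem_ball_zero_iff] at hw
  have h0b : (0 : ℂ) ∈ Metric.ball (0 : ℂ) 1 := hball 0 (by simp)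
  by_cases hcase : ∃ p : ℂ, ‖p‖ ≤ r ∧ 2 * u p - 1 ≤ ε
  · -- case 1
    obtain ⟨p, hp, hup⟩ := hcase
    have hp1 : ‖p‖ < 1 := by linarith
    obtain ⟨G, hGd, hGu, hGp⟩ := hG p (hball p hp1)
    have hmaps : MapsTo (Tp p) (Metric.ball (0 : ℂ) 1) (Metric.ball (0 : ℂ) 1) := by
      intro w hw
      exact hball _ (Tp_lt hp1 (hball' w hw))
    have hTd : DifferentiableOn ℂ (Tp p) (Metric.ball (0 : ℂ) 1) := by
      intro w hw
      apply DifferentiableAt.differentiableWithinAt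
      unfold Tp
      apply DifferentiableAt.div
      · fun_prop
      · fun_prop
      · exact den_ne hp1 (hball' w hw)
    have hFd : DifferentiableOn ℂ (fun ζ => 2 * G (Tp p ζ) - 1) (Metric.ball (0 : ℂ) 1) := by
      have := hGd.comp hTd hmaps
      exact (this.const_mul 2).sub_const 1
    have hFre : ∀ ζ : ℂ, (2 * G (Tp p ζ) - 1).re = 2 * (G (Tp p ζ)).re - 1 := by
      intro ζ
      simp
    have hFnn : ∀ ζ ∈ Metric.ball (0 : ℂ) 1, 0 ≤ (2 * G (Tp p ζ) - 1).re := by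
      intro ζ hζ
      rw [hFre]
      have h1 := hGu _ (hmaps hζ)
      have h2 := hu _ (hmaps hζ)
      linarith
    have hT0 : Tp p 0 = p := by unfold Tp; simp
    have main : ∀ w : ℂ, ‖w‖ ≤ r → u w ≤ 1 / 2 + 28 * ε := by
      intro w hw
      have hw1 : ‖w‖ < 1 := by linarith
      have hζ : ‖Tp (-p) w‖ < 1 := Tp_lt (by rwa [norm_neg]) hw1
      have h1 := (hHK _ hFd hFnn (Tp (-p) w) (hball _ hζ)).1
      rw [hFre, hFre, hT0, hGp, Tp_inv hp1 hw1] at h1
      have h2 := hGu w (hball w hw1)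
      have h3 := Tp_norm hr1 hp hw
      obtain ⟨a, ha⟩ : ∃ a, a = ‖Tp (-p) w‖ := ⟨_, rfl⟩
      rw [← ha] at h1 h3 hζ
      have ha0 : 0 ≤ a := by rw [ha]; exact norm_nonneg _
      have hE : (1 + a) / (1 - a) ≤ ((1 + r) / (1 - r)) ^ 2 := by
        rw [div_pow, div_le_div_iff₀ (by linarith) (by positivity)]
        nlinarith
      have hE2 : ((1 + r) / (1 - r)) ^ 2 ≤ 56 := by
        rw [hr, rr_eq]
        exact e4
      have hup0 : 0 ≤ 2 * u p - 1 := by linarith [hu p (hball p hp1)]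
      have h4 : (1 + a) / (1 - a) * (2 * u p - 1) ≤ 56 * ε :=
        mul_le_mul (hE.trans hE2) hup hup0 (by norm_num)
      linarith
    have hz1 := main z hz
    have h01 := main 0 (by simpa using hr0)
    have hz2 := hu z (hball z (by linarith))
    have h02 := hu 0 h0b
    rw [abs_le]
    constructor <;> linarith
  · -- case 2
    push Not at hcase
    have hstep : ∀ p : ℂ, ‖p‖ ≤ r → ∀ ζ : ℂ, ‖ζ‖ ≤ 1 / 2 →
        u (Tp p ζ) ≤ u p * (1 + θ * ‖ζ‖ + 8 * ‖ζ‖ ^ 2) := by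
      intro p hp
      rcases halt p hp with h | h
      · exact absurd h (not_le.mpr (hcase p hp))
      · exact h
    rcases eq_or_ne z 0 with rfl | hz0
    · simp only [sub_self, abs_zero]
      positivity
    have hnz : 0 < ‖z‖ := norm_pos_iff.mpr hz0
    have hz1 : ‖z‖ < 1 := by linarith
    obtain ⟨x, hx⟩ : ∃ x, x = Real.artanh ‖z‖ := ⟨_, rfl⟩
    have hxt : Real.tanh x = ‖z‖ := by
      rw [hx]
      exact Real.tanh_artanh ⟨by linarith, hz1⟩
    have hx0 : 0 ≤ x := by rw [hx]; exact Real.artanh_nonneg hnz.le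
    have hx1 : x ≤ 1 := by
      by_contra hlt
      push Not at hlt
      have h1 := tanh_le' hlt.le
      rw [← hr, hxt] at h1
      have h2 : Real.tanh x = Real.tanh 1 := by rw [hxt, ← hr]; linarith
      have := Real.tanh_injective h2
      linarith
    obtain ⟨e, he⟩ : ∃ e : ℂ, e = z / (‖z‖ : ℂ) := ⟨_, rfl⟩
    have hnzc : (‖z‖ : ℂ) ≠ 0 := by exact_mod_cast hnz.ne'
    have hze : z = ((Real.tanh x : ℝ) : ℂ) * e := by
      rw [he, hxt]
      field_simp
    have hne : ‖e‖ = 1 := by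
      rw [he, norm_div, Complex.norm_real, norm_norm, div_self hnz.ne']
    have hee : conj e * e = 1 := by
      rw [mul_comm, Complex.mul_conj, Complex.normSq_eq_norm_sq, hne]
      simp
    -- one step along the ray
    have hray : ∀ s t : ℝ, Tp (((Real.tanh s : ℝ) : ℂ) * e) (((Real.tanh t : ℝ) : ℂ) * e) =
        ((Real.tanh (s + t) : ℝ) : ℂ) * e := by
      intro s t
      have hdr : (1 : ℝ) + Real.tanh s * Real.tanh t ≠ 0 := by
        have h1 := tanh_Ioo s
        have h2 := tanh_Ioo t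
        have h3 : |Real.tanh s * Real.tanh t| < 1 := by
          rw [abs_mul]
          have a1 : |Real.tanh s| < 1 := abs_lt.mpr h1
          have a2 : |Real.tanh t| < 1 := abs_lt.mpr h2
          calc |Real.tanh s| * |Real.tanh t| ≤ |Real.tanh s| * 1 :=
                mul_le_mul_of_nonneg_left a2.le (abs_nonneg _)
            _ < 1 := by linarith
        have := (abs_lt.mp h3).1
        linarith
      have hadd := tanh_add_mul s t
      have hdc : (1 : ℂ) + ((Real.tanh s : ℝ) : ℂ) * ((Real.tanh t : ℝ) : ℂ) ≠ 0 := by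
        exact_mod_cast hdr
      unfold Tp
      have hd : 1 + conj (((Real.tanh s : ℝ) : ℂ) * e) * (((Real.tanh t : ℝ) : ℂ) * e) =
          1 + ((Real.tanh s : ℝ) : ℂ) * ((Real.tanh t : ℝ) : ℂ) := by
        rw [map_mul, Complex.conj_ofReal]
        linear_combination (((Real.tanh s : ℝ) : ℂ) * ((Real.tanh t : ℝ) : ℂ)) * hee
      rw [hd, div_eq_iff hdc]
      have haddc : ((Real.tanh (s + t) : ℝ) : ℂ) *
          (1 + ((Real.tanh s : ℝ) : ℂ) * ((Real.tanh t : ℝ) : ℂ)) =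
          ((Real.tanh s : ℝ) : ℂ) + ((Real.tanh t : ℝ) : ℂ) := by
        exact_mod_cast hadd
      linear_combination (-e) * haddc
    have hnorm : ∀ s : ℝ, ‖((Real.tanh s : ℝ) : ℂ) * e‖ = |Real.tanh s| := by
      intro s
      rw [norm_mul, hne, mul_one, Complex.norm_real, Real.norm_eq_abs]
    have hupos : ∀ s : ℝ, 0 ≤ u (((Real.tanh s : ℝ) : ℂ) * e) := by
      intro s
      have hb : ((Real.tanh s : ℝ) : ℂ) * e ∈ Metric.ball (0 : ℂ) 1 := by
        apply hball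
        rw [hnorm]
        exact abs_lt.mpr (tanh_Ioo s)
      have := hu _ hb
      linarith
    -- the bound for `n` steps
    have hn : ∀ n : ℕ, 4 ≤ n →
        u z ≤ u 0 * Real.exp (θ + 33 / n) ∧ u 0 ≤ u z * Real.exp (θ + 33 / n) := by
      intro n hn4
      have hnR : (4 : ℝ) ≤ n := by exact_mod_cast hn4
      have hn0 : (0 : ℝ) < n := by linarith
      obtain ⟨y, hy⟩ : ∃ y : ℝ, y = x / n := ⟨_, rfl⟩
      have hy0 : 0 ≤ y := by rw [hy]; positivity
      have hy1 : y ≤ 1 / n := by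
        rw [hy]
        gcongr
      have hn4' : 1 / (n : ℝ) ≤ 1 / 4 := one_div_le_one_div_of_le (by norm_num) hnR
      obtain ⟨τ, hτ⟩ : ∃ τ, τ = Real.tanh y := ⟨_, rfl⟩
      have hτ0 : 0 ≤ τ := by rw [hτ]; exact tanh_nn hy0
      have hτ1 : τ ≤ y + y ^ 2 / 2 := by rw [hτ]; exact tanh_up hy0 (by linarith)
      obtain ⟨m, hm⟩ : ∃ m : ℝ, m = 1 / n := ⟨_, rfl⟩
      have hm0 : 0 < m := by rw [hm]; positivity
      rw [← hm] at hy1 hn4'
      have hτ2 : τ ≤ m + m ^ 2 / 2 := by nlinarith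
      have hτh : τ ≤ 1 / 2 := by nlinarith
      have hq : 1 + θ * τ + 8 * τ ^ 2 ≤ 1 + (θ * m + 33 * m ^ 2) := by
        have a1 : θ * τ ≤ θ * (m + m ^ 2 / 2) := mul_le_mul_of_nonneg_left hτ2 hθ0
        have a2 : θ * (m ^ 2 / 2) ≤ 1 * (m ^ 2 / 2) :=
          mul_le_mul_of_nonneg_right hθ1 (by positivity)
        have a3 : τ ≤ 2 * m := by nlinarith
        have a4 : τ ^ 2 ≤ (2 * m) ^ 2 := pow_le_pow_left₀ hτ0 a3 2
        nlinarith [sq_nonneg m]
      obtain ⟨q, hqq⟩ : ∃ q, q = 1 + θ * τ + 8 * τ ^ 2 := ⟨_, rfl⟩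
      have hq0 : 0 ≤ q := by rw [hqq]; positivity
      have hqe : q ≤ Real.exp (θ * m + 33 * m ^ 2) := by
        rw [hqq]
        refine hq.trans ?_
        have := Real.add_one_le_exp (θ * m + 33 * m ^ 2)
        linarith
      have hqn : q ^ n ≤ Real.exp (θ + 33 / n) := by
        calc q ^ n ≤ (Real.exp (θ * m + 33 * m ^ 2)) ^ n := pow_le_pow_left₀ hq0 hqe n
          _ = Real.exp (n * (θ * m + 33 * m ^ 2)) := (Real.exp_nat_mul _ _).symm
          _ = Real.exp (θ + 33 / n) := by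
              congr 1
              rw [hm]
              field_simp
      obtain ⟨P, hP⟩ : ∃ P : ℕ → ℂ, P = fun k : ℕ => ((Real.tanh ((k : ℝ) * y) : ℝ) : ℂ) * e := ⟨_, rfl⟩
      have hPn : ∀ k : ℕ, k ≤ n → ‖P k‖ ≤ r := by
        intro k hk
        rw [hP]
        simp only
        have hky : (k : ℝ) * y ≤ 1 := by
          have : (k : ℝ) * y ≤ n * y := by
            apply mul_le_mul_of_nonneg_right _ hy0
            exact_mod_cast hk
          have h2 : (n : ℝ) * y = x := by rw [hy]; field_simp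
          linarith
        have hk0 : (0 : ℝ) ≤ k * y := by positivity
        rw [hnorm, abs_of_nonneg (tanh_nn hk0), hr]
        exact tanh_le' hky
      have hPu : ∀ k : ℕ, 0 ≤ u (P k) := by
        intro k
        rw [hP]
        exact hupos _
      have hPs : ∀ k : ℕ, P (k + 1) = Tp (P k) (((Real.tanh y : ℝ) : ℂ) * e) := by
        intro k
        rw [hP]
        simp only
        rw [hray]
        congr 3
        push_cast
        ring
      have hPb : ∀ k : ℕ, P k = Tp (P (k + 1)) (((Real.tanh (-y) : ℝ) : ℂ) * e) := by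
        intro k
        rw [hP]
        simp only
        rw [hray]
        congr 3
        push_cast
        ring
      have hf : ∀ k : ℕ, k < n → u (P (k + 1)) ≤ u (P k) * q := by
        intro k hk
        rw [hPs k, hqq, ← hτ]
        have h1 := hstep (P k) (hPn k hk.le) (((Real.tanh y : ℝ) : ℂ) * e) (by
          rw [hnorm, ← hτ, abs_of_nonneg hτ0]; exact hτh)
        rw [hnorm, ← hτ, abs_of_nonneg hτ0] at h1
        exact h1
      have hbk : ∀ k : ℕ, k < n → u (P k) ≤ u (P (k + 1)) * q := by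
        intro k hk
        have hab : |Real.tanh (-y)| = τ := by rw [Real.tanh_neg, abs_neg, ← hτ, abs_of_nonneg hτ0]
        have h1 := hstep (P (k + 1)) (hPn (k + 1) hk) (((Real.tanh (-y) : ℝ) : ℂ) * e) (by
          rw [hnorm, hab]; exact hτh)
        rw [hnorm, hab, ← hPb k] at h1
        rw [hqq]
        exact h1
      have hind : ∀ k : ℕ, k ≤ n → u (P k) ≤ u (P 0) * q ^ k ∧ u (P 0) ≤ u (P k) * q ^ k := by
        intro k
        induction k with
        | zero => intro _; simp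
        | succ k ih =>
          intro hk
          obtain ⟨i1, i2⟩ := ih (by omega)
          have hqk : 0 ≤ q ^ k := by positivity
          constructor
          · calc u (P (k + 1)) ≤ u (P k) * q := hf k (by omega)
              _ ≤ (u (P 0) * q ^ k) * q := mul_le_mul_of_nonneg_right i1 hq0
              _ = u (P 0) * q ^ (k + 1) := by ring
          · calc u (P 0) ≤ u (P k) * q ^ k := i2
              _ ≤ (u (P (k + 1)) * q) * q ^ k := mul_le_mul_of_nonneg_right (hbk k (by omega)) hqk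
              _ = u (P (k + 1)) * q ^ (k + 1) := by ring
      have hP0 : P 0 = 0 := by
        rw [hP]
        simp
      have hPz : P n = z := by
        rw [hP]
        simp only
        have h2 : (n : ℝ) * y = x := by rw [hy]; field_simp
        rw [h2]
        exact hze.symm
      obtain ⟨i1, i2⟩ := hind n le_rfl
      rw [hP0, hPz] at i1 i2
      have hu0 : 0 ≤ u 0 := by linarith [hu 0 h0b]
      have huz : 0 ≤ u z := by linarith [hu z (hball z hz1)]
      exact ⟨i1.trans (mul_le_mul_of_nonneg_left hqn hu0), i2.trans (mul_le_mul_of_nonneg_left hqn huz)⟩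
    -- the limit
    have hlim : ∀ c : ℝ, Tendsto (fun n : ℕ => c * Real.exp (θ + 33 / (n : ℝ))) atTop
        (𝓝 (c * Real.exp θ)) := by
      intro c
      apply Tendsto.const_mul
      have h1 : Tendsto (fun n : ℕ => θ + 33 / (n : ℝ)) atTop (𝓝 (θ + 0)) :=
        tendsto_const_nhds.add (tendsto_const_div_atTop_nhds_zero_nat 33)
      rw [add_zero] at h1
      exact (Real.continuous_exp.tendsto θ).comp h1
    have l1 : u z ≤ u 0 * Real.exp θ :=
      ge_of_tendsto (hlim (u 0)) (eventually_atTop.mpr ⟨4, fun n hn4 => (hn n hn4).1⟩)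
    have l2 : u 0 ≤ u z * Real.exp θ :=
      ge_of_tendsto (hlim (u z)) (eventually_atTop.mpr ⟨4, fun n hn4 => (hn n hn4).2⟩)
    have hexp : Real.exp θ ≤ 1 + 2 * θ := by
      have h1 := Real.abs_exp_sub_one_sub_id_le (x := θ) (by rw [abs_of_nonneg hθ0]; exact hθ1)
      have h2 := (abs_le.mp h1).2
      nlinarith
    have hu0 : 1 / 2 ≤ u 0 ∧ u 0 ≤ 1 := ⟨hu 0 h0b, hu1 0 (by simpa using hr0)⟩
    have huz : 1 / 2 ≤ u z ∧ u z ≤ 1 := ⟨hu z (hball z hz1), hu1 z hz⟩
    have m1 : u 0 * Real.exp θ ≤ u 0 + 2 * θ := by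
      have a1 : u 0 * Real.exp θ ≤ u 0 * (1 + 2 * θ) :=
        mul_le_mul_of_nonneg_left hexp (by linarith [hu0.1])
      have a2 : u 0 * (2 * θ) ≤ 1 * (2 * θ) :=
        mul_le_mul_of_nonneg_right hu0.2 (by positivity)
      linarith
    have m2 : u z * Real.exp θ ≤ u z + 2 * θ := by
      have a1 : u z * Real.exp θ ≤ u z * (1 + 2 * θ) :=
        mul_le_mul_of_nonneg_left hexp (by linarith [huz.1])
      have a2 : u z * (2 * θ) ≤ 1 * (2 * θ) :=
        mul_le_mul_of_nonneg_right huz.2 (by positivity)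
      linarith
    rw [abs_le]
    constructor <;> linarith

end Pool.Agent.Helper14.QT
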