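import Pool.Agent.Helper85.QT.St1

/-!
# Project QT, module SB7: outside the hull there is a disc in `A` or in `B`
-/

set_option autoImplicit false

open MeasureTheory Matrix Set Topology
open scoped ENNReal ComplexConjugate

namespace Pool.Agent.Helper14.QT

open Pool.Agent.Helper85.QT Pool.Agent.Helper86.QA

/-- the form in real coordinates -/
theorem qf_eq (H : Mat) (hH : H.IsHermitian) (ξ : ℂ) :
    qf H ξ = (H 0 0).re * (ξ.re ^ 2 + ξ.im ^ 2) + 2 * (ξ.re * (H 0 1).re + ξ.im * (H 0 1).im)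
      + (H 1 1).re := by
  have h00 : (H 0 0).im = 0 := by
    have h1 : star (H 0 0) = H 0 0 := hH.apply 0 0
    have h2 := congrArg Complex.im h1
    simp at h2
    linarith
  have h10 : H 1 0 = conj (H 0 1) := (hH.apply 1 0).symm
  unfold qf
  rw [h10]
  simp only [Complex.add_re, Complex.mul_re, Complex.mul_im, Complex.conj_re, Complex.conj_im]
  rw [h00]
  ring

/-- the determinant in real coordinates -/
theorem det_eq (H : Mat) (hH : H.IsHermitian) (hd : H.det = -1) :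
    (H 0 0).re * (H 1 1).re - ((H 0 1).re ^ 2 + (H 0 1).im ^ 2) = -1 := by
  have h00 : (H 0 0).im = 0 := by
    have h1 : star (H 0 0) = H 0 0 := hH.apply 0 0
    have h2 := congrArg Complex.im h1
    simp at h2
    linarith
  have h10 : H 1 0 = conj (H 0 1) := (hH.apply 1 0).symm
  rw [Matrix.det_fin_two] at hd
  have h3 := congrArg Complex.re hd
  rw [h10] at h3
  simp only [Complex.sub_re, Complex.mul_re, Complex.conj_re, Complex.conj_im, Complex.neg_re,
    Complex.one_re] at h3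
  rw [h00] at h3
  linarith

theorem nsq (w : ℂ) : ‖w‖ ^ 2 = w.re ^ 2 + w.im ^ 2 := by
  rw [Complex.sq_norm, Complex.normSq_apply]
  ring

theorem hSB7 (hSB0 : Pool.Agent.Helper85.QT.StSB0) (_hSB1 : Pool.Agent.Helper85.QT.StSB1) :
    Pool.Agent.Helper85.QT.StSB7 := by
  intro Γ _ ρ A B hKD x hx hsb
  -- an admissible form with positive value
  have hex : ∃ H, AdF A B H ∧ 0 < hf H x := by
    by_contra hne
    push Not at hne
    have : sb A B x ≤ 0 := by
      unfold sb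
      apply Real.sSup_nonpos
      rintro v ⟨H, hH, rfl⟩
      exact hne H hH
    linarith
  obtain ⟨H, ⟨hHh, hHd, hH0, hHL⟩, hpos⟩ := hex
  have hx2 : 0 < x.2 := hx
  -- it is enough to find a ball disjoint from the limit set
  suffices hs : ∃ (c : ℂ) (r : ℝ), 0 < r ∧ ‖x.1 - c‖ ^ 2 + x.2 ^ 2 < r ^ 2 ∧
      ∀ ξ ∈ Metric.ball c r, qf H ξ < 0 by
    obtain ⟨c, r, hr, hxc, hb⟩ := hs
    refine ⟨c, r, hr, hxc, ?_⟩
    have hsub : Metric.ball c r ⊆ A ∪ B := by
      intro ξ hξ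
      by_contra hn
      have h1 : ξ ∈ LS A B := hn
      exact absurd (hHL ξ h1) (not_le.mpr (hb ξ hξ))
    exact ((convex_ball c r).isPreconnected).subset_or_subset hKD.opA hKD.opB hKD.dis hsub
  have hval : qf H x.1 + (H 0 0).re * x.2 ^ 2 < 0 := by
    have h1 := hSB0.1 H x hHh hx
    have h2 : 0 < 2 * x.2 * hf H x := by positivity
    linarith
  have hdet := det_eq H hHh hHd
  set α : ℝ := (H 0 0).re with hα
  set b1 : ℝ := (H 0 1).re with hb1
  set b2 : ℝ := (H 0 1).im with hb2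
  set δ : ℝ := (H 1 1).re with hδ
  have hq : ∀ ξ : ℂ, qf H ξ = α * (ξ.re ^ 2 + ξ.im ^ 2) + 2 * (ξ.re * b1 + ξ.im * b2) + δ :=
    qf_eq H hHh
  rw [hq] at hval
  rcases hH0.lt_or_eq with hpa | hza
  · -- a genuine disc
    refine ⟨⟨-(b1 / α), -(b2 / α)⟩, 1 / α, by positivity, ?_, ?_⟩
    · rw [nsq]
      simp only [Complex.sub_re, Complex.sub_im]
      have h1 : α ^ 2 * ((x.1.re - -(b1 / α)) ^ 2 + (x.1.im - -(b2 / α)) ^ 2 + x.2 ^ 2) < 1 := by
        have h2 : α ^ 2 * ((x.1.re - -(b1 / α)) ^ 2 + (x.1.im - -(b2 / α)) ^ 2 + x.2 ^ 2)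
            = (α * x.1.re + b1) ^ 2 + (α * x.1.im + b2) ^ 2 + α ^ 2 * x.2 ^ 2 := by
          field_simp
          ring
        rw [h2]
        nlinarith [mul_neg_of_pos_of_neg hpa hval]
      have h3 : (1 / α) ^ 2 = 1 / α ^ 2 := by
        rw [div_pow, one_pow]
      rw [h3, lt_div_iff₀ (by positivity)]
      linarith
    · intro ξ hξ
      rw [Metric.mem_ball, dist_eq_norm] at hξ
      have h0 : ‖ξ - ⟨-(b1 / α), -(b2 / α)⟩‖ ^ 2 < (1 / α) ^ 2 := by
        exact pow_lt_pow_left₀ hξ (norm_nonneg _) two_ne_zero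
      rw [nsq] at h0
      simp only [Complex.sub_re, Complex.sub_im] at h0
      have h3 : (1 / α) ^ 2 = 1 / α ^ 2 := by
        rw [div_pow, one_pow]
      rw [h3, lt_div_iff₀ (by positivity)] at h0
      have h2 : ((ξ.re - -(b1 / α)) ^ 2 + (ξ.im - -(b2 / α)) ^ 2) * α ^ 2
            = (α * ξ.re + b1) ^ 2 + (α * ξ.im + b2) ^ 2 := by
          field_simp
          ring
      rw [h2] at h0
      rw [hq]
      have h4 : α * (α * (ξ.re ^ 2 + ξ.im ^ 2) + 2 * (ξ.re * b1 + ξ.im * b2) + δ) < 0 := by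
        nlinarith [h0, hdet]
      by_contra hn
      push Not at hn
      have := mul_nonneg hpa.le hn
      linarith
  · -- a half plane
    rw [← hza] at hval hdet
    have hb : b1 ^ 2 + b2 ^ 2 = 1 := by linarith
    -- the value at `z`
    obtain ⟨κ, hκ⟩ : ∃ κ : ℝ, κ = -((x.1.re * b1 + x.1.im * b2) + δ / 2) := ⟨_, rfl⟩
    have hκp : 0 < κ := by
      rw [hκ]
      linarith
    obtain ⟨R, hR⟩ : ∃ R : ℝ, R = x.2 ^ 2 / κ := ⟨_, rfl⟩
    have hRp : 0 < R := by
      rw [hR]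
      positivity
    have hRk : κ * R = x.2 ^ 2 := by
      rw [hR]
      field_simp
    refine ⟨⟨x.1.re - R * b1, x.1.im - R * b2⟩, R + κ / 2, by positivity, ?_, ?_⟩
    · rw [nsq]
      simp only [Complex.sub_re, Complex.sub_im]
      have h1 : (x.1.re - (x.1.re - R * b1)) ^ 2 + (x.1.im - (x.1.im - R * b2)) ^ 2
          = R ^ 2 * (b1 ^ 2 + b2 ^ 2) := by ring
      rw [h1, hb]
      nlinarith [hRk, mul_pos hκp hκp]
    · intro ξ hξ
      rw [Metric.mem_ball, dist_eq_norm] at hξ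
      rw [hq, ← hza]
      -- Cauchy-Schwarz
      have hcs : (ξ.re - (x.1.re - R * b1)) * b1 + (ξ.im - (x.1.im - R * b2)) * b2
          ≤ ‖ξ - ⟨x.1.re - R * b1, x.1.im - R * b2⟩‖ := by
        apply le_of_sq_le_sq _ (norm_nonneg _) 
        rw [nsq]
        simp only [Complex.sub_re, Complex.sub_im]
        nlinarith [sq_nonneg ((ξ.re - (x.1.re - R * b1)) * b2 - (ξ.im - (x.1.im - R * b2)) * b1), hb,
          mul_nonneg (sq_nonneg (ξ.re - (x.1.re - R * b1))) (sq_nonneg b2)]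
      have h5 : (ξ.re - (x.1.re - R * b1)) * b1 + (ξ.im - (x.1.im - R * b2)) * b2
          = (ξ.re * b1 + ξ.im * b2) - (x.1.re * b1 + x.1.im * b2) + R * (b1 ^ 2 + b2 ^ 2) := by ring
      rw [h5, hb] at hcs
      nlinarith [hcs, hξ, hκ, hκp]

end Pool.Agent.Helper14.QT
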